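import Pool.Agent.Run7.h131.AD.Iface

/-!
Piece `MER` of the project AD (MP_88ab83_nt): functions with an algebraic addition theorem are
meromorphic in the plane.
-/

set_option autoImplicit false

namespace Run7.h99.AD

open Run7.h131.AD

/-- meromorphic in the open disc of radius `R` -/
def MerC (R : ℝ) (x : PowerSeries ℂ) : Prop :=
  ∀ r : ℝ, 0 < r → r < R → ∃ G H : PowerSeries ℂ, G ≠ 0 ∧ Rad r G ∧ Rad r H ∧ G * x = H

theorem rad_nonneg {R : ℝ} {G : PowerSeries ℂ} {K : ℝ}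
    (h : ∀ k : ℕ, ‖PowerSeries.coeff k G‖ * R ^ k ≤ K) : 0 ≤ K := by
  have := h 0
  simp only [pow_zero, mul_one] at this
  exact le_trans (norm_nonneg _) this

theorem lin_pow {r R : ℝ} (hr : 0 < r) (hR : r < R) (k : ℕ) :
    ((k : ℝ) + 1) * r ^ k ≤ (1 + 1 / (R / r - 1)) * R ^ k := by
  set δ := R / r - 1 with hδ
  have hδ0 : 0 < δ := by
    have : 1 < R / r := by rwa [lt_div_iff₀ hr, one_mul]
    linarith
  have h1 : 1 + (k : ℝ) * δ ≤ (1 + δ) ^ k := one_add_mul_le_pow (by linarith) k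
  have h2 : 1 + δ = R / r := by rw [hδ]; ring
  rw [h2, div_pow] at h1
  have h3 : (1 + (k : ℝ) * δ) * r ^ k ≤ R ^ k := by
    rwa [le_div_iff₀ (pow_pos hr k)] at h1
  have h4 : (k : ℝ) + 1 ≤ (1 + 1 / δ) * (1 + (k : ℝ) * δ) := by
    have : (1 + 1 / δ) * (1 + (k : ℝ) * δ) = (k : ℝ) + 1 + (k * δ + 1 / δ) := by
      field_simp
      ring
    rw [this]
    have h5 : 0 ≤ (k : ℝ) * δ := by positivity
    have h6 : 0 ≤ 1 / δ := by positivity
    linarith
  calc ((k : ℝ) + 1) * r ^ k ≤ ((1 + 1 / δ) * (1 + (k : ℝ) * δ)) * r ^ k :=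
        mul_le_mul_of_nonneg_right h4 (pow_pos hr k).le
    _ = (1 + 1 / δ) * ((1 + (k : ℝ) * δ) * r ^ k) := by ring
    _ ≤ (1 + 1 / δ) * R ^ k := mul_le_mul_of_nonneg_left h3 (by positivity)

theorem rad_mul {r R : ℝ} (hr : 0 < r) (hR : r < R) {G H : PowerSeries ℂ} (hG : Rad R G)
    (hH : Rad R H) : Rad r (G * H) := by
  obtain ⟨K1, h1⟩ := hG
  obtain ⟨K2, h2⟩ := hH
  have hK1 := rad_nonneg h1
  have hK2 := rad_nonneg h2
  have hR0 : 0 < R := lt_trans hr hR
  refine ⟨(1 + 1 / (R / r - 1)) * (K1 * K2), fun k => ?_⟩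
  have h3 : ‖PowerSeries.coeff k (G * H)‖ * R ^ k ≤ ((k : ℝ) + 1) * (K1 * K2) := by
    rw [PowerSeries.coeff_mul]
    calc ‖∑ p ∈ Finset.HasAntidiagonal.antidiagonal k, PowerSeries.coeff p.1 G * PowerSeries.coeff p.2 H‖ * R ^ k
        ≤ (∑ p ∈ Finset.HasAntidiagonal.antidiagonal k,
            ‖PowerSeries.coeff p.1 G * PowerSeries.coeff p.2 H‖) * R ^ k :=
          mul_le_mul_of_nonneg_right (norm_sum_le _ _) (pow_pos hR0 k).le
      _ = ∑ p ∈ Finset.HasAntidiagonal.antidiagonal k,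
            ‖PowerSeries.coeff p.1 G * PowerSeries.coeff p.2 H‖ * R ^ k := Finset.sum_mul _ _ _
      _ ≤ ∑ p ∈ Finset.HasAntidiagonal.antidiagonal k, K1 * K2 := by
          refine Finset.sum_le_sum fun p hp => ?_
          have hpk : p.1 + p.2 = k := Finset.HasAntidiagonal.mem_antidiagonal.1 hp
          rw [← hpk, pow_add, norm_mul]
          have h5 := h1 p.1
          have h6 := h2 p.2
          calc ‖PowerSeries.coeff p.1 G‖ * ‖PowerSeries.coeff p.2 H‖ * (R ^ p.1 * R ^ p.2)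
              = (‖PowerSeries.coeff p.1 G‖ * R ^ p.1) * (‖PowerSeries.coeff p.2 H‖ * R ^ p.2) := by
                ring
            _ ≤ K1 * K2 := mul_le_mul h5 h6 (by positivity) hK1
      _ = ((k : ℝ) + 1) * (K1 * K2) := by
          rw [Finset.sum_const, Finset.Nat.card_antidiagonal, nsmul_eq_mul]
          push_cast
          ring
  have h4 := lin_pow hr hR k
  have hRk : 0 < R ^ k := pow_pos hR0 k
  have h5 : (‖PowerSeries.coeff k (G * H)‖ * r ^ k) * R ^ k ≤
      ((1 + 1 / (R / r - 1)) * (K1 * K2)) * R ^ k := by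
    calc (‖PowerSeries.coeff k (G * H)‖ * r ^ k) * R ^ k
        = (‖PowerSeries.coeff k (G * H)‖ * R ^ k) * r ^ k := by ring
      _ ≤ (((k : ℝ) + 1) * (K1 * K2)) * r ^ k :=
          mul_le_mul_of_nonneg_right h3 (pow_pos hr k).le
      _ = (((k : ℝ) + 1) * r ^ k) * (K1 * K2) := by ring
      _ ≤ ((1 + 1 / (R / r - 1)) * R ^ k) * (K1 * K2) :=
          mul_le_mul_of_nonneg_right h4 (mul_nonneg hK1 hK2)
      _ = _ := by ring
  exact le_of_mul_le_mul_right h5 hRk

theorem rad_add {r : ℝ} (hr : 0 < r) {G H : PowerSeries ℂ} (hG : Rad r G) (hH : Rad r H) :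
    Rad r (G + H) := by
  obtain ⟨K1, h1⟩ := hG
  obtain ⟨K2, h2⟩ := hH
  refine ⟨K1 + K2, fun k => ?_⟩
  rw [map_add]
  calc ‖PowerSeries.coeff k G + PowerSeries.coeff k H‖ * r ^ k
      ≤ (‖PowerSeries.coeff k G‖ + ‖PowerSeries.coeff k H‖) * r ^ k :=
        mul_le_mul_of_nonneg_right (norm_add_le _ _) (pow_pos hr k).le
    _ = ‖PowerSeries.coeff k G‖ * r ^ k + ‖PowerSeries.coeff k H‖ * r ^ k := by ring
    _ ≤ K1 + K2 := add_le_add (h1 k) (h2 k)

theorem rad_C {r : ℝ} (c : ℂ) : Rad r (PowerSeries.C c) := by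
  refine ⟨‖c‖, fun k => ?_⟩
  rw [PowerSeries.coeff_C]
  split_ifs with h
  · subst h; simp
  · simp

theorem rad_one {r : ℝ} : Rad r (1 : PowerSeries ℂ) := by
  have := rad_C (r := r) 1
  rwa [map_one] at this

theorem mer_C (R : ℝ) (c : ℂ) : MerC R (PowerSeries.C c) := fun _ _ _ =>
  ⟨1, PowerSeries.C c, one_ne_zero, rad_one, rad_C c, one_mul _⟩

theorem mer_mul {R : ℝ} {x y : PowerSeries ℂ} (hx : MerC R x) (hy : MerC R y) :
    MerC R (x * y) := by
  intro r hr hrR
  obtain ⟨G1, H1, g1, a1, b1, e1⟩ := hx ((r + R) / 2) (by linarith) (by linarith)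
  obtain ⟨G2, H2, g2, a2, b2, e2⟩ := hy ((r + R) / 2) (by linarith) (by linarith)
  refine ⟨G1 * G2, H1 * H2, mul_ne_zero g1 g2, rad_mul hr (by linarith) a1 a2,
    rad_mul hr (by linarith) b1 b2, ?_⟩
  rw [← e1, ← e2]; ring

theorem mer_add {R : ℝ} {x y : PowerSeries ℂ} (hx : MerC R x) (hy : MerC R y) :
    MerC R (x + y) := by
  intro r hr hrR
  obtain ⟨G1, H1, g1, a1, b1, e1⟩ := hx ((r + R) / 2) (by linarith) (by linarith)
  obtain ⟨G2, H2, g2, a2, b2, e2⟩ := hy ((r + R) / 2) (by linarith) (by linarith)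
  refine ⟨G1 * G2, H1 * G2 + G1 * H2, mul_ne_zero g1 g2, rad_mul hr (by linarith) a1 a2,
    rad_add hr (rad_mul hr (by linarith) b1 a2) (rad_mul hr (by linarith) a1 b2), ?_⟩
  rw [← e1, ← e2]; ring

theorem mer_div {R : ℝ} {A B x : PowerSeries ℂ} (hA : MerC R A) (hB : MerC R B) (h0 : A ≠ 0)
    (h : A * x = B) : MerC R x := by
  intro r hr hrR
  obtain ⟨G1, H1, g1, a1, b1, e1⟩ := hA ((r + R) / 2) (by linarith) (by linarith)
  obtain ⟨G2, H2, g2, a2, b2, e2⟩ := hB ((r + R) / 2) (by linarith) (by linarith)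
  have hH1 : H1 ≠ 0 := by rw [← e1]; exact mul_ne_zero g1 h0
  refine ⟨H1 * G2, G1 * H2, mul_ne_zero hH1 g2, rad_mul hr (by linarith) b1 a2,
    rad_mul hr (by linarith) a1 b2, ?_⟩
  rw [← e1, ← e2, ← h]; ring

theorem resc_resc (x : PowerSeries ℂ) :
    PowerSeries.rescale (1 / 2 : ℂ) (PowerSeries.rescale (2 : ℂ) x) = x := by
  ext k
  simp only [PowerSeries.coeff_rescale]
  rw [← mul_assoc, ← mul_pow]
  norm_num

theorem resc_resc' (x : PowerSeries ℂ) :
    PowerSeries.rescale (2 : ℂ) (PowerSeries.rescale (1 / 2 : ℂ) x) = x := by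
  ext k
  simp only [PowerSeries.coeff_rescale]
  rw [← mul_assoc, ← mul_pow]
  norm_num

theorem rad_resc {r : ℝ} {G : PowerSeries ℂ} (h : Rad (r / 2) G) :
    Rad r (PowerSeries.rescale (1 / 2 : ℂ) G) := by
  obtain ⟨K, hK⟩ := h
  refine ⟨K, fun k => ?_⟩
  rw [PowerSeries.coeff_rescale, norm_mul, norm_pow]
  have h1 := hK k
  rw [div_pow] at h1
  have h2 : ‖(1 / 2 : ℂ)‖ = 1 / 2 := by norm_num
  rw [h2, one_div, inv_pow]
  calc ((2 : ℝ) ^ k)⁻¹ * ‖PowerSeries.coeff k G‖ * r ^ k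
      = ‖PowerSeries.coeff k G‖ * (r ^ k / 2 ^ k) := by ring
    _ ≤ K := h1

theorem mer_resc {R : ℝ} {x : PowerSeries ℂ} (h : MerC R (PowerSeries.rescale (2 : ℂ) x)) :
    MerC (2 * R) x := by
  intro r hr hrR
  obtain ⟨G, H, g, a, b, e⟩ := h (r / 2) (by linarith) (by linarith)
  refine ⟨PowerSeries.rescale (1 / 2 : ℂ) G, PowerSeries.rescale (1 / 2 : ℂ) H, ?_, rad_resc a,
    rad_resc b, ?_⟩
  · intro h0
    apply g
    rw [← resc_resc' G, h0, map_zero]
  · rw [← e, map_mul, resc_resc]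

/-- the embedding of the coefficients -/
noncomputable abbrev φ : PS →+* PowerSeries ℂ := PowerSeries.map (algebraMap ℚ ℂ)

theorem phi_resc (x : PS) :
    φ (PowerSeries.rescale (2 : ℚ) x) = PowerSeries.rescale (2 : ℂ) (φ x) := by
  ext k
  simp [PowerSeries.coeff_rescale, PowerSeries.coeff_map]

theorem mer_aeval {σ : Type} {R : ℝ} (e : σ → PS) (he : ∀ i, MerC R (φ (e i)))
    (P : MvPolynomial σ ℚ) : MerC R (φ (MvPolynomial.aeval e P)) := by
  induction P using MvPolynomial.induction_on with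
  | C a =>
      have : φ (MvPolynomial.aeval e (MvPolynomial.C a)) = PowerSeries.C (a : ℂ) := by
        rw [MvPolynomial.aeval_C]
        ext k
        rw [PowerSeries.coeff_map, PowerSeries.coeff_C]
        show algebraMap ℚ ℂ (PowerSeries.coeff k (PowerSeries.C a)) = _
        rw [PowerSeries.coeff_C]
        split_ifs <;> simp
      rw [this]
      exact mer_C R _
  | add p q hp hq => rw [map_add, map_add]; exact mer_add hp hq
  | mul_X p i hp =>
      rw [map_mul, map_mul, MvPolynomial.aeval_X]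
      exact mer_mul hp (he i)

theorem ev_aeval {σ : Type} (e : σ → PS) (P : MvPolynomial σ ℚ) :
    PowerSeries.constantCoeff (MvPolynomial.aeval e P) =
      MvPolynomial.eval (fun i => PowerSeries.constantCoeff (e i)) P := by
  induction P using MvPolynomial.induction_on with
  | C a =>
      rw [MvPolynomial.aeval_C, MvPolynomial.eval_C]
      show PowerSeries.constantCoeff (PowerSeries.C a) = a
      simp
  | add p q hp hq => rw [map_add, map_add, map_add, hp, hq]
  | mul_X p i hp => rw [map_mul, map_mul, map_mul, hp, MvPolynomial.aeval_X, MvPolynomial.eval_X]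

theorem phi_ne {x : PS} (h : x ≠ 0) : φ x ≠ 0 := by
  intro h0
  apply h
  have hi : Function.Injective (φ : PS → PowerSeries ℂ) :=
    PowerSeries.map_injective _ (algebraMap ℚ ℂ).injective
  exact hi (by rw [h0, map_zero])

theorem t_MER (hD : S_DIA) : S_MER := by
  intro s w N M hA hC g hg R hR
  obtain ⟨C, hC1, hC⟩ := hC
  have hC0 : 0 < C := lt_of_lt_of_le one_pos hC1
  have hstep : ∀ ρ : ℝ, (∀ i, MerC ρ (φ (w i))) → ∀ i, MerC (2 * ρ) (φ (w i)) := by
    intro ρ hρ i
    have he : ∀ j : Fin s ⊕ Fin s, MerC ρ (φ (Sum.elim w w j)) := by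
      rintro (j | j)
      · exact hρ j
      · exact hρ j
    have h1 := hD s w N M hA i
    have h2 : MvPolynomial.aeval (Sum.elim w w) (M i) ≠ 0 := by
      intro h0
      have h3 := ev_aeval (Sum.elim w w) (M i)
      rw [h0, map_zero] at h3
      apply hA.unit i
      have h4 : (fun j => PowerSeries.constantCoeff (Sum.elim w w j)) = pt0 w := by
        funext j
        rcases j with j | j <;> rfl
      rw [h4] at h3
      exact h3.symm
    apply mer_resc
    rw [← phi_resc]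
    refine mer_div (mer_aeval (Sum.elim w w) he (M i)) (mer_aeval (Sum.elim w w) he (N i))
      (phi_ne h2) ?_
    rw [← map_mul, h1]
  have hn : ∀ n : ℕ, ∀ i, MerC (2 ^ n * (1 / C)) (φ (w i)) := by
    intro n
    induction n with
    | zero =>
        intro i r hr hrR
        refine ⟨1, φ (w i), one_ne_zero, rad_one, ⟨C, fun k => ?_⟩, one_mul _⟩
        have h1 := hC i k
        have h2 : ‖PowerSeries.coeff k (φ (w i))‖ =
            |((PowerSeries.coeff k (w i) : ℚ) : ℝ)| := by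
          rw [PowerSeries.coeff_map]
          show ‖((PowerSeries.coeff k (w i) : ℚ) : ℂ)‖ = _
          rw [Complex.norm_ratCast]
        rw [h2]
        have h3 : r ^ k ≤ (1 / C) ^ k := by
          apply pow_le_pow_left₀ hr.le
          simp only [pow_zero, one_mul] at hrR
          exact hrR.le
        calc |((PowerSeries.coeff k (w i) : ℚ) : ℝ)| * r ^ k ≤ C ^ (k + 1) * (1 / C) ^ k :=
              mul_le_mul h1 h3 (pow_pos hr k).le (by positivity)
          _ = C := by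
              rw [one_div, inv_pow, pow_succ]
              field_simp
    | succ n ih =>
        intro i
        have := hstep _ ih i
        rwa [← mul_assoc, ← pow_succ'] at this
  obtain ⟨P, Q, hQ, he⟩ := hg
  obtain ⟨n, hnR⟩ : ∃ n : ℕ, R * C < 2 ^ n := pow_unbounded_of_one_lt _ (by norm_num)
  have hQ0 : MvPolynomial.aeval w Q ≠ 0 := by
    intro h0
    have h3 := ev_aeval w Q
    rw [h0, map_zero] at h3
    exact hQ h3.symm
  have hm : MerC (2 ^ n * (1 / C)) (φ g) := by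
    refine mer_div (mer_aeval w (hn n) Q) (mer_aeval w (hn n) P) (phi_ne hQ0) ?_
    rw [← map_mul, he]
  refine hm R hR ?_
  rw [mul_one_div, lt_div_iff₀ hC0]
  exact hnR

end Run7.h99.AD
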